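import Pool.Agent.H81.Rainbow.Small

/-!
The exact threshold for forbidden rainbow odd cycles in edge-coloured complete graphs:
`g 3 = 1`, `g 5 = 8` and `g n = 2n - 3` for every odd `n ≥ 7`.
-/

namespace Pool.Agent.Results.MP_39b1b7_co.ExactValue

open Pool.Agent.H81.Rainbow

/-- `Threshold n M`: for every `N` and every colouring `c` of the edges of `K_N`, if `c` has no
rainbow `n`-cycle, then it has no rainbow `m`-cycle for any `m ≥ M`.  (Values of `c` on the
diagonal of `Sym2 (Fin N)` play no role, since the vertices of a cycle are distinct.) -/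
def Threshold (n M : ℕ) : Prop :=
  ∀ (N : ℕ) (C : Type) (c : Sym2 (Fin N) → C), ¬ HasRainbowCycle c n →
    ∀ m, M ≤ m → ¬ HasRainbowCycle c m

/-- For every odd `n ≥ 3`, the least positive integer `M` such that forbidding rainbow `n`-cycles
forbids rainbow `m`-cycles for all `m ≥ M` is `1` if `n = 3`, `8` if `n = 5`, and `2n - 3` if
`n ≥ 7`. -/
theorem result (n : ℕ) (hn : Odd n) (h3 : 3 ≤ n) :
    IsLeast {M : ℕ | 0 < M ∧ Threshold n M}
      (if n = 3 then 1 else if n = 5 then 8 else 2 * n - 3) := by
  by_cases e3 : n = 3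
  · subst e3
    refine ⟨⟨by norm_num, fun N C c non m _ => three_len c non m⟩, fun M hM => ?_⟩
    have := hM.1
    simp only [if_true]
    omega
  by_cases e5 : n = 5
  · subst e5
    refine ⟨⟨by norm_num, fun N C c non m hm => five_len c non m (by simpa using hm)⟩,
      fun M hM => ?_⟩
    simp only [if_neg e3, if_true]
    by_contra hcon
    exact hM.2 7 ℕ sevenCol seven_not 7 (by omega) seven_has
  · obtain ⟨h, rfl⟩ := hn
    have hh : 3 ≤ h := by omega
    rw [if_neg e3, if_neg e5]
    refine ⟨⟨by omega, fun N C c non m hm => all_len c h hh non m (by omega)⟩,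
      fun M hM => ?_⟩
    by_contra hcon
    exact hM.2 (4 * h - 2) ℕ (lowCol h) (low_not h (by omega)) (4 * h - 2) (by omega)
      (low_has h (by omega))

end Pool.Agent.Results.MP_39b1b7_co.ExactValue
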